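import Pool.Agent.H149.SZ.G
import Pool.Graph.R_seed8.H370R2.Dyadic

set_option autoImplicit false

/-!
# Simple zeros of Hardy's function solve every smooth equation, and every pair of smooth equations

No hypothesis is assumed.  An ordinate is a real `x` such that `1/2 + i x` is a simple zero of the
function in question: the Riemann zeta function (then the ordinates are the simple real zeros of
Hardy's function `Z`) or any primitive Dirichlet L-function; different functions may be used for
different unknowns.  The mean spacing of the zeros at height `T` is `2π / log T`.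

1. (Systems.)  Let `ψ_1, …, ψ_r` be positive `C¹` functions of `x = (x_1, …, x_m)` on a box.  Suppose
that each `ψ_i` has a last variable `x_{λ(i)}` (it depends on `x_1, …, x_{λ(i)}` only), with
`∂ψ_i / ∂x_{λ(i)} ≠ 0`, and that every variable is the last one of one, two or three of the
functions.  Then for all large `T` and all shifts `0 ≤ s_i ≤ T^(1+δ)` there are at least
`c (T log T)^m` families of ordinates `(γ_1, …, γ_r)` with `γ_i = T ψ_i(x) + s_i + O(1 / log T)` for
some point `x` of the box; this is the order of magnitude which one expects from the number of the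
zeros.  Examples: `r ≤ 3`, `m = 1`, a smooth curve in the plane or in space (the pairs and triples
`γ' ≈ α γ`, `γ'' ≈ β γ`); the `(a, b, a + b, c, b + c, a + b + c)`: three ordinates all whose
differences are close to ordinates, too.

2. (Equations.)  Let `k ≤ 2` and let `Φ(w_1, …, w_N) = 0` be `k` equations in `N > k` unknowns, `Φ`
of class `C¹` near a solution `z` with positive coordinates, such that for some `k + 1` of the
unknowns all the `k × k` minors of the matrix of the derivatives of `Φ` with respect to these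
unknowns are different from zero at `z`; for one equation this means that two of the partial
derivatives are different from zero.  For all large `T` the equations are satisfied, up to the mean
spacing, by at least `c (T log T)^(N-k)` families of ordinates close to `T z` (moved by `s`), again
the expected order.  For instance, if `P` is a homogeneous polynomial of degree `D` with a zero as
above, then `|P(γ_1, …, γ_N)| ≤ C T^(D-1) / log T` for `≥ c (T log T)^(N-1)` families of ordinates
`γ_i ≍ T`.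

3. Every large real number `X` is in at least `c X log X` ways the sum of two positive simple zeros
of `Z` up to an error `C / log X`.

For all the zeros, on RH, such statements follow from the known bounds for the moments of the number
of zeros in short windows, so 1. - 3. would be true if all the zeros of `Z` were simple (and RH
true).  The proof uses the covering theorem `cover_shift` of the library (the windows of a large
constant number of mean spacings contain simple critical zeros for the proportion `0.6724 > 2/3` of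
their positions), which survives a change of variables, a choice of the variables one after the
other, and the implicit function theorem.
-/

open Filter Topology Complex MeasureTheory

namespace Pool.Agent.Results.MP_6bc78b_nt.SmoothEquations

/-- `x` is an ordinate of `F`: `1/2 + i x` is a simple zero of `F` -/
def Ordinate (F : ℂ → ℂ) (x : ℝ) : Prop :=
  F (1 / 2 + x * I) = 0 ∧ analyticOrderNatAt F (1 / 2 + x * I) = 1

/-- the families of ordinates near the points `T ψ(x) + s`, `x` in the box `[a, b]` -/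
def nearSystem {m r : ℕ} (F : Fin r → ℂ → ℂ) (a b : Fin m → ℝ) (ψ : Fin r → (Fin m → ℝ) → ℝ)
    (s : Fin r → ℝ) (C T : ℝ) : Set (Fin r → ℝ) :=
  {γ : Fin r → ℝ | (∀ i, Ordinate (F i) (γ i)) ∧
    ∃ x ∈ Set.Icc a b, ∀ i, |γ i - (T * ψ i x + s i)| ≤ C / Real.log T}

/-- the families of ordinates `γ` with `(γ - s) / T` in the cube of side `2 ε` around `z`, for which
`|Φ((γ - s) / T)| ≤ C / (T log T)` -/
def nearSolutions {r k : ℕ} (F : Fin r → ℂ → ℂ) (Φ : (Fin r → ℝ) → (Fin k → ℝ)) (z : Fin r → ℝ)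
    (ε : ℝ) (s : Fin r → ℝ) (C T : ℝ) : Set (Fin r → ℝ) :=
  {γ : Fin r → ℝ | (∀ l, Ordinate (F l) (γ l)) ∧ (∀ l, |(γ l - s l) / T - z l| ≤ ε) ∧
    ∀ p, |Φ (fun l => (γ l - s l) / T) p| ≤ C / (T * Real.log T)}

/-- the pairs of positive ordinates of zeta whose sum is near `X` -/
def nearSums (C X : ℝ) : Set (Fin 2 → ℝ) :=
  {γ : Fin 2 → ℝ | (∀ l, 0 < γ l ∧ Ordinate riemannZeta (γ l)) ∧
    |γ 0 + γ 1 - X| ≤ C / Real.log X}

lemma zeta_ordinates_finite (B : ℝ) : {x : ℝ | 0 < x ∧ x ≤ B ∧ Ordinate riemannZeta x}.Finite := by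
  refine ((H370.zeta_zeros_finite B).image Complex.im).subset ?_
  rintro x ⟨h1, h2, h3, -⟩
  refine ⟨1 / 2 + x * I, ⟨?_, ?_, ?_, ?_, h3⟩, ?_⟩
  · simp
  · simp; norm_num
  · simpa using h1
  · simpa using h2
  · simp

lemma good_zeta : H370.GoodL riemannZeta := by
  have h := H370.good_dirichlet (1 : DirichletCharacter ℂ 1) (by
    rw [DirichletCharacter.isPrimitive_def, DirichletCharacter.conductor_one])
  rwa [DirichletCharacter.LFunction_modOne_eq] at h

theorem result :
    -- 1. systems
    (∃ δ : ℝ, 0 < δ ∧ ∀ (m r : ℕ) (lam : Fin r → Fin m),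
      (∀ j, 1 ≤ {i | lam i = j}.ncard ∧ {i | lam i = j}.ncard ≤ 3) →
      ∀ (q : Fin r → ℕ) [∀ i, NeZero (q i)] (χ : ∀ i, DirichletCharacter ℂ (q i)),
      (∀ i, (χ i).IsPrimitive) →
      ∀ (a b : Fin m → ℝ) (U : Set (Fin m → ℝ)) (ψ : Fin r → (Fin m → ℝ) → ℝ),
      (∀ j, a j < b j) → IsOpen U → Set.Icc a b ⊆ U → (∀ i, ContDiffOn ℝ 1 (ψ i) U) →
      (∀ i, ∀ x ∈ Set.Icc a b, 0 < ψ i x) →
      (∀ i, ∀ x ∈ Set.Icc a b, ∀ y ∈ Set.Icc a b, (∀ j ≤ lam i, x j = y j) → ψ i x = ψ i y) →
      (∀ i, ∀ x ∈ Set.Icc a b, fderiv ℝ (ψ i) x (Pi.single (lam i) 1) ≠ 0) →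
      ∃ C c T₀ : ℝ, 0 < c ∧ ∀ T : ℝ, T₀ ≤ T → ∀ s : Fin r → ℝ,
        (∀ i, 0 ≤ s i ∧ s i ≤ T ^ (1 + δ)) →
        (nearSystem (fun i => DirichletCharacter.LFunction (χ i)) a b ψ s C T).Finite ∧
        c * (T * Real.log T) ^ m ≤
          (nearSystem (fun i => DirichletCharacter.LFunction (χ i)) a b ψ s C T).ncard) ∧
    -- 2. one or two equations
    (∃ δ : ℝ, 0 < δ ∧ ∀ (n k : ℕ), k ≤ 2 →
      ∀ (Φ : (Fin (n + 1 + k) → ℝ) → (Fin k → ℝ)) (z : Fin (n + 1 + k) → ℝ),
      ContDiffAt ℝ 1 Φ z → Φ z = 0 →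
      ∀ σ : Fin (k + 1) → Fin (n + 1 + k), Function.Injective σ →
      (∀ t : Fin (k + 1), (Matrix.of fun p p' =>
        fderiv ℝ Φ z (Pi.single (σ (t.succAbove p')) 1) p).det ≠ 0) →
      ∀ (q : Fin (n + 1 + k) → ℕ) [∀ l, NeZero (q l)] (χ : ∀ l, DirichletCharacter ℂ (q l)),
      (∀ l, (χ l).IsPrimitive) → ∀ ε : ℝ, 0 < ε → (∀ l, ε < z l) →
      ∃ C c T₀ : ℝ, 0 < c ∧ ∀ T : ℝ, T₀ ≤ T → ∀ s : Fin (n + 1 + k) → ℝ,
        (∀ l, 0 ≤ s l ∧ s l ≤ T ^ (1 + δ)) →
        (nearSolutions (fun l => DirichletCharacter.LFunction (χ l)) Φ z ε s C T).Finite ∧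
        c * (T * Real.log T) ^ (n + 1) ≤
          (nearSolutions (fun l => DirichletCharacter.LFunction (χ l)) Φ z ε s C T).ncard) ∧
    -- 3. sums of two zeros
    (∃ C c X₀ : ℝ, 0 < c ∧ ∀ X : ℝ, X₀ ≤ X → (nearSums C X).Finite ∧
      c * (X * Real.log X) ≤ (nearSums C X).ncard) := by
  classical
  refine ⟨?_, ?_, ?_⟩
  · obtain ⟨δ, hδ, h⟩ := Pool.Agent.H149.SZ.main
    refine ⟨δ, hδ, fun m r lam hlam q _ χ hχ a b U ψ hab hU hbox hsm hpos hdep hnd => ?_⟩
    have hcard : ∀ j, {i | lam i = j}.ncard = (Finset.univ.filter fun i => lam i = j).card := by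
      intro j
      rw [← Set.ncard_coe_finset]
      congr 1
      ext i
      simp
    obtain ⟨C, c, T₀, hc, hT⟩ := h (Y := ⟨lam, a, b, hab, U, hU, hbox, ψ, hsm, hpos, hdep, hnd⟩)
      (by
        intro j
        have h1 := (hlam j).1
        rw [hcard j] at h1
        obtain ⟨i, hi⟩ := Finset.card_pos.1 h1
        exact ⟨i, (Finset.mem_filter.1 hi).2⟩)
      (by
        intro j
        have h1 := (hlam j).2
        rw [hcard j] at h1
        convert h1)
      (fun i => DirichletCharacter.LFunction (χ i)) (fun i => H370.good_dirichlet (χ i) (hχ i))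
    refine ⟨C, c ^ m, T₀, pow_pos hc m, fun T hTT s hs => ?_⟩
    obtain ⟨h1, h2⟩ := hT T hTT s hs
    refine ⟨h1, ?_⟩
    rw [← mul_pow]
    exact h2
  · obtain ⟨δ, hδ, h⟩ := Pool.Agent.H149.SZ.equations
    refine ⟨δ, hδ, fun n k hk Φ z hΦ hΦz σ hσ hdet q _ χ hχ ε hε hεz => ?_⟩
    obtain ⟨C, c, T₀, hc, hT⟩ := h hk Φ z (fun l => hε.trans (hεz l)) hΦ hΦz σ hσ hdet
      (fun l => DirichletCharacter.LFunction (χ l)) (fun l => H370.good_dirichlet (χ l) (hχ l))
      ε hε hεz
    refine ⟨C, c ^ (n + 1), T₀, pow_pos hc _, fun T hTT s hs => ?_⟩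
    obtain ⟨h1, h2⟩ := hT T hTT s hs
    refine ⟨h1, ?_⟩
    rw [← mul_pow]
    exact h2
  · obtain ⟨δ, hδ, h⟩ := Pool.Agent.H149.SZ.equations
    set Φ : (Fin (0 + 1 + 1) → ℝ) → (Fin 1 → ℝ) := fun w _ => w 0 + w 1 - 1 with hΦ
    set z : Fin (0 + 1 + 1) → ℝ := fun _ => 1 / 2 with hz
    set L : (Fin (0 + 1 + 1) → ℝ) →L[ℝ] (Fin 1 → ℝ) :=
      ContinuousLinearMap.pi fun _ => (ContinuousLinearMap.proj 0 : (Fin (0 + 1 + 1) → ℝ) →L[ℝ] ℝ) +
        (ContinuousLinearMap.proj 1 : (Fin (0 + 1 + 1) → ℝ) →L[ℝ] ℝ) with hL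
    have hd : ∀ w, HasFDerivAt Φ L w := by
      intro w
      rw [hasFDerivAt_pi']
      intro p
      have h0 : HasFDerivAt (fun w : Fin (0 + 1 + 1) → ℝ => w 0)
          (ContinuousLinearMap.proj 0 : (Fin (0 + 1 + 1) → ℝ) →L[ℝ] ℝ) w :=
        (ContinuousLinearMap.proj 0 : (Fin (0 + 1 + 1) → ℝ) →L[ℝ] ℝ).hasFDerivAt
      have h0' : HasFDerivAt (fun w : Fin (0 + 1 + 1) → ℝ => w 1)
          (ContinuousLinearMap.proj 1 : (Fin (0 + 1 + 1) → ℝ) →L[ℝ] ℝ) w :=
        (ContinuousLinearMap.proj 1 : (Fin (0 + 1 + 1) → ℝ) →L[ℝ] ℝ).hasFDerivAt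
      exact (h0.add h0').sub_const 1
    have hcd : ContDiffAt ℝ 1 Φ z := by
      refine ContDiff.contDiffAt ?_
      rw [contDiff_pi]
      intro p
      simp only [hΦ]
      fun_prop
    obtain ⟨C, c, T₀, hc, hT⟩ := h (n := 0) (k := 1) (by norm_num) Φ z (fun l => by simp [hz]) hcd
      (by ext p; simp only [hΦ, hz, Pi.zero_apply]; norm_num) (fun i => i) (fun i j hij => hij)
      (by
        intro t
        rw [Matrix.det_unique, Matrix.of_apply, (hd z).fderiv, hL]
        fin_cases t <;> simp)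
      (fun _ => riemannZeta) (fun _ => good_zeta) (1 / 4) (by norm_num)
      (fun l => by simp only [hz]; norm_num)
    refine ⟨C, c, max T₀ 2, hc, fun X hX => ?_⟩
    have hX1 : T₀ ≤ X := (le_max_left _ _).trans hX
    have hX2 : 2 ≤ X := (le_max_right _ _).trans hX
    have hX0 : 0 < X := by linarith
    have hlog : 0 < Real.log X := Real.log_pos (by linarith)
    obtain ⟨h1, h2⟩ := hT X hX1 (fun _ => 0) (fun _ => ⟨le_rfl, Real.rpow_nonneg hX0.le _⟩)
    have hfin : (nearSums C X).Finite := by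
      refine (Set.Finite.pi' (fun _ : Fin 2 => zeta_ordinates_finite (X + C / Real.log X))).subset ?_
      rintro γ ⟨hγ, hs⟩ l
      have hs' := (abs_le.1 hs).2
      refine ⟨(hγ l).1, ?_, (hγ l).2⟩
      have a0 := (hγ 0).1
      have a1 := (hγ 1).1
      fin_cases l
      · show γ 0 ≤ _
        linarith
      · show γ 1 ≤ _
        linarith
    refine ⟨hfin, ?_⟩
    have hsub : Pool.Agent.H149.SZ.sols (fun _ => riemannZeta) Φ z (1 / 4) (fun _ => 0) C X ⊆
        nearSums C X := by
      rintro γ ⟨g1, g2, g3⟩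
      refine ⟨fun l => ⟨?_, g1 l⟩, ?_⟩
      · have := (abs_le.1 (g2 l)).1
        simp only [hz, sub_zero] at this
        have h3 : 0 < γ l / X := by linarith
        exact (div_pos_iff_of_pos_right hX0).1 h3
      · have h3 := g3 0
        simp only [hΦ, sub_zero] at h3
        have e : γ 0 / X + γ 1 / X - 1 = (γ 0 + γ 1 - X) / X := by
          field_simp
        rw [e, abs_div, abs_of_pos hX0, div_le_iff₀ hX0] at h3
        have e2 : C / (X * Real.log X) * X = C / Real.log X := by
          field_simp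
        rw [e2] at h3
        exact h3
    have hcard := Set.ncard_le_ncard hsub hfin
    have h3 : c * (X * Real.log X) ≤
        (Pool.Agent.H149.SZ.sols (fun _ => riemannZeta) Φ z (1 / 4) (fun _ => 0) C X).ncard :=
      (le_of_eq (pow_one _).symm).trans h2
    exact h3.trans (by exact_mod_cast hcard)

end Pool.Agent.Results.MP_6bc78b_nt.SmoothEquations
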